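import Pool.Agent.Helper42.PW.Goals4
import Pool.Agent.Helper42.PW.TRN
import Pool.Agent.Helper22.PP.POMG
import Pool.Agent.Helper94.PB.VLOC3
import Pool.Agent.Helper32.RD.VAL

/-!
# Project W: W_APX
-/

set_option autoImplicit false
set_option linter.unusedSectionVars false

namespace Pool.Agent.Helper13.PW

open NumberField Polynomial Module IsDedekindDomain
open scoped Pointwise
open Pool.Agent.Helper51.RP Pool.Agent.Helper42.RD Pool.Agent.Helper42.PP Pool.Agent.Helper42.PP1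
open Pool.Agent.Helper42.PB Pool.Agent.Helper42.PW
open Pool.Agent.Helper22.PP (pow_congr act_mul exists_n nsig_eq nsig_mul nsig_inv nsig_ne om_iff
  om_mul)
open Pool.Agent.Helper40.RS (bel gw bel_smul conj_of_bel val_smul)
open Pool.Agent.Helper40.RD (valW)

/-- Weak approximation in terms of `Cl`. -/
theorem approx_cl {p : ℕ} (hp : p ≠ 0) {F : Type} [Field F] [NumberField F]
    (Z : Finset (HeightOneSpectrum (𝓞 F))) (t : HeightOneSpectrum (𝓞 F) → Fˣ) :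
    ∃ c : Fˣ, ∀ W ∈ Z, Cl p W ((c : F) / t W) := by
  have hpF : (p : F) ≠ 0 := Nat.cast_ne_zero.2 hp
  obtain ⟨c, hc⟩ := Pool.Agent.Helper32.RDV.weakApproxUnits Z t
    (fun W => W.valuation F (t W : F) * W.valuation F (p : F) ^ 3) (fun W =>
      mul_ne_zero ((_root_.map_ne_zero _).2 (t W).ne_zero)
        (pow_ne_zero _ ((_root_.map_ne_zero _).2 hpF)))
  refine ⟨c, fun W hW => ?_⟩
  obtain ⟨h1, h2⟩ := hc W hW
  have ht : (t W : F) ≠ 0 := (t W).ne_zero
  have hv : W.valuation F (t W : F) ≠ 0 := (_root_.map_ne_zero _).2 ht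
  have e : (c : F) / t W - 1 = ((c : F) - t W) / t W := by
    field_simp
  have hpos : 0 < W.valuation F (t W : F) := zero_lt_iff.2 hv
  refine ⟨?_, ?_⟩
  · rw [e, map_div₀, div_lt_one₀ hpos]
    exact h2
  · rw [e, map_div₀, div_le_iff₀ hpos, mul_comm]
    exact h1

section sub

variable {p : ℕ} [hp : Fact p.Prime] {F : Type} [Field F] [NumberField F]

theorem cl_one (W : HeightOneSpectrum (𝓞 F)) : Cl p W (1 : F) := by
  unfold Cl
  rw [sub_self, map_zero]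
  exact ⟨zero_lt_one, zero_le⟩

/-- The units which are locally `p`-th powers at `W`. -/
def GW (h2 : N_GRP) (p : ℕ) [Fact p.Prime] (W : HeightOneSpectrum (𝓞 F)) : Subgroup Fˣ where
  carrier := {u | PwAt p W (u : F)}
  mul_mem' := by
    intro a b ha hb
    show PwAt p W ((a * b : Fˣ) : F)
    rw [Units.val_mul]
    exact (h2 p F W).2.2.1 _ _ ha hb
  one_mem' := by
    show PwAt p W ((1 : Fˣ) : F)
    rw [Units.val_one]
    exact (h2 p F W).2.2.2.2.2.1 1 (cl_one W)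
  inv_mem' := by
    intro a ha
    show PwAt p W ((a⁻¹ : Fˣ) : F)
    rw [Units.val_inv_eq_inv_val]
    exact (h2 p F W).2.2.2.1 _ ha

theorem mem_GW (h2 : N_GRP) (W : HeightOneSpectrum (𝓞 F)) (u : Fˣ) :
    u ∈ GW h2 p W ↔ PwAt p W (u : F) := Iff.rfl

theorem pow_mem_GW (h2 : N_GRP) (W : HeightOneSpectrum (𝓞 F)) (u : Fˣ) :
    u ^ p ∈ GW h2 p W := by
  rw [mem_GW, Units.val_pow_eq_pow_val]
  exact (h2 p F W).2.2.2.2.1 _ u.ne_zero

/-- Exponents modulo `p`. -/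
theorem GW_congr (h2 : N_GRP) (W : HeightOneSpectrum (𝓞 F)) (x u : Fˣ) {n m : ℕ}
    (h : (n : ZMod p) = (m : ZMod p)) : x * u ^ n ∈ GW h2 p W ↔ x * u ^ m ∈ GW h2 p W := by
  obtain ⟨d, hd⟩ := pow_congr u h
  rw [hd, ← mul_assoc]
  exact Subgroup.mul_mem_cancel_right _ (pow_mem_GW h2 W d)

/-- From the local condition at all primes to one `y`. -/
theorem locS_of (h2 : N_GRP) (Z : Set (HeightOneSpectrum (𝓞 F))) (hZ : Z.Finite) (α : Fˣ)
    (h : ∀ W ∈ Z, PwAt p W (α : F)) : LocS p Z α := by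
  classical
  have hp0 : p ≠ 0 := hp.out.ne_zero
  have h1 : ∀ W : HeightOneSpectrum (𝓞 F), ∃ y : Fˣ, W ∈ Z → Cl p W ((α : F) * (y : F) ^ p) := by
    intro W
    by_cases hW : W ∈ Z
    · obtain ⟨y, hy⟩ := h W hW
      have hy0 : y ≠ 0 := by
        rintro rfl
        have h3 := hy.1
        rw [zero_pow hp0, mul_zero, zero_sub, Valuation.map_neg, map_one] at h3
        exact lt_irrefl _ h3
      exact ⟨Units.mk0 y hy0, fun _ => hy⟩
    · exact ⟨1, fun h => absurd h hW⟩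
  choose t ht using h1
  obtain ⟨c, hc⟩ := approx_cl hp0 hZ.toFinset t
  refine ⟨c, fun W hW => ?_⟩
  have h3 := hc W (hZ.mem_toFinset.2 hW)
  have h4 := ht W hW
  obtain ⟨hm, -⟩ := h2 p F W
  have h5 : ∀ n : ℕ, Cl p W (((c : F) / t W) ^ n) := by
    intro n
    induction n with
    | zero => rw [pow_zero]; exact cl_one W
    | succ n ih => rw [pow_succ]; exact hm _ _ ih h3
  have h6 := hm _ _ h4 (h5 p)
  have h7 : (α : F) * (t W : F) ^ p * ((c : F) / t W) ^ p = (α : F) * (c : F) ^ p := by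
    have := (t W).ne_zero
    rw [div_pow]
    field_simp
  rw [h7] at h6
  exact h6

end sub

section gal

variable {p : ℕ} [hp : Fact p.Prime] {K K₁ M₂ : Type} [Field K] [NumberField K] [Field K₁]
  [NumberField K₁] [Field M₂] [NumberField M₂] [Algebra K K₁] [Algebra K M₂] [Algebra K₁ M₂]
  [IsScalarTower K K₁ M₂] [IsGalois K K₁] [IsGalois K M₂]

/-- The product `∏ σ(c)^(k(σ|K₁))` is in `K₁`. -/
theorem fix_mem (c : M₂ˣ) (k : (K₁ ≃ₐ[K] K₁) → ℤ) : ∃ y : K₁ˣ,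
    Units.map (algebraMap K₁ M₂ : K₁ →* M₂) y =
      ∏ σ : M₂ ≃ₐ[K] M₂, act σ c ^ k (AlgEquiv.restrictNormalHom K₁ σ) := by
  classical
  have hG : IsGalois K₁ M₂ := IsGalois.tower_top_of_isGalois K K₁ M₂
  have hfd : FiniteDimensional K₁ M₂ := Module.Finite.of_restrictScalars_finite ℚ K₁ M₂
  set u : M₂ˣ := ∏ σ : M₂ ≃ₐ[K] M₂, act σ c ^ k (AlgEquiv.restrictNormalHom K₁ σ) with hu
  have h1 : (u : M₂) ∈ Set.range (algebraMap K₁ M₂) := by
    rw [IsGalois.mem_range_algebraMap_iff_fixed]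
    intro h
    set h' : M₂ ≃ₐ[K] M₂ := h.restrictScalars K with hh'
    have h2 : AlgEquiv.restrictNormalHom K₁ h' = 1 := by
      apply AlgEquiv.ext
      intro x
      apply (algebraMap K₁ M₂).injective
      have h3 := AlgEquiv.restrictNormal_commutes h' K₁ x
      have h4 : h' (algebraMap K₁ M₂ x) = algebraMap K₁ M₂ x := h.commutes x
      rw [h4] at h3
      exact h3
    have h5 : act h' u = u := by
      rw [hu, map_prod]
      refine Fintype.prod_equiv (Equiv.mulLeft h') _ _ fun σ => ?_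
      rw [map_zpow]
      show act h' (act σ c) ^ _ = act h' (act σ c) ^ k (AlgEquiv.restrictNormalHom K₁ (h' * σ))
      rw [map_mul, h2, one_mul]
    exact congrArg (fun v : M₂ˣ => (v : M₂)) h5
  obtain ⟨y, hy⟩ := h1
  have hy0 : y ≠ 0 := by
    rintro rfl
    rw [map_zero] at hy
    exact u.ne_zero hy.symm
  exact ⟨Units.mk0 y hy0, Units.ext hy⟩

theorem act_lift (τ : M₂ ≃ₐ[K] M₂) (y : K₁ˣ) :
    act τ (Units.map (algebraMap K₁ M₂ : K₁ →* M₂) y) =
      Units.map (algebraMap K₁ M₂ : K₁ →* M₂) (act (AlgEquiv.restrictNormalHom K₁ τ) y) := by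
  apply Units.ext
  exact (AlgEquiv.restrictNormal_commutes τ K₁ (y : K₁)).symm

theorem map_inj : Function.Injective (Units.map (algebraMap K₁ M₂ : K₁ →* M₂)) := by
  intro x y h
  apply Units.ext
  apply (algebraMap K₁ M₂).injective
  exact congrArg (fun v : M₂ˣ => (v : M₂)) h

variable {ε : K₁}

theorem nsig_lift (hε : IsPrimitiveRoot ε p) (σ : M₂ ≃ₐ[K] M₂) :
    nsig p (algebraMap K₁ M₂ ε) σ = nsig p ε (AlgEquiv.restrictNormalHom K₁ σ) := by
  have hε₂ : IsPrimitiveRoot (algebraMap K₁ M₂ ε) p :=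
    hε.map_of_injective (algebraMap K₁ M₂).injective
  obtain ⟨n, hn⟩ := exists_n hε (AlgEquiv.restrictNormalHom K₁ σ)
  have h1 : σ (algebraMap K₁ M₂ ε) = (algebraMap K₁ M₂ ε) ^ n := by
    rw [← map_pow, ← hn]
    exact (AlgEquiv.restrictNormal_commutes σ K₁ ε).symm
  rw [nsig_eq hε₂ h1, nsig_eq hε hn]

/-- The exponents. -/
noncomputable def kx (p : ℕ) [Fact p.Prime] (K : Type) {K₁ : Type} [Field K] [Field K₁]
    [Algebra K K₁] (ε : K₁) (ρ : K₁ ≃ₐ[K] K₁) : ℕ := ((nsig p ε ρ)⁻¹).val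

theorem kx_cast (ρ : K₁ ≃ₐ[K] K₁) : (kx p K ε ρ : ZMod p) = (nsig p ε ρ)⁻¹ := by
  unfold kx
  rw [ZMod.natCast_zmod_val]

/-- The twisted norm of `c` is of type `ω`. -/
theorem exists_b (hε : IsPrimitiveRoot ε p) (c : M₂ˣ) : ∃ b : K₁ˣ, OmType p K ε (b : K₁) ∧
    Units.map (algebraMap K₁ M₂ : K₁ →* M₂) b =
      ∏ σ : M₂ ≃ₐ[K] M₂, act σ c ^ kx p K ε (AlgEquiv.restrictNormalHom K₁ σ) := by
  classical
  obtain ⟨b, hb⟩ := fix_mem (K := K) (K₁ := K₁) c (fun ρ => (kx p K ε ρ : ℤ))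
  have hb' : Units.map (algebraMap K₁ M₂ : K₁ →* M₂) b =
      ∏ σ : M₂ ≃ₐ[K] M₂, act σ c ^ kx p K ε (AlgEquiv.restrictNormalHom K₁ σ) := by
    rw [hb]
    exact Finset.prod_congr rfl fun σ _ => zpow_natCast _ _
  refine ⟨b, ?_, hb'⟩
  rw [om_iff hε]
  intro τ n hn
  have h1 : ∀ ρ : K₁ ≃ₐ[K] K₁, ∃ l : ℤ,
      (kx p K ε (τ⁻¹ * ρ) : ℤ) = (kx p K ε ρ : ℤ) * n + l * p := by
    intro ρ
    have h2 : (((kx p K ε (τ⁻¹ * ρ) : ℤ) - (kx p K ε ρ : ℤ) * n : ℤ) : ZMod p) = 0 := by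
      push_cast
      rw [kx_cast, kx_cast, nsig_mul hε, nsig_inv hε, mul_inv, inv_inv, ← hn]
      ring
    rw [ZMod.intCast_zmod_eq_zero_iff_dvd] at h2
    obtain ⟨l, hl⟩ := h2
    exact ⟨l, by rw [mul_comm l]; omega⟩
  choose l hl using h1
  obtain ⟨y, hy⟩ := fix_mem (K := K) (K₁ := K₁) c l
  refine ⟨y, ?_⟩
  obtain ⟨τ', hτ'⟩ := AlgEquiv.restrictNormalHom_surjective (F := K) (K₁ := K₁) M₂ τ
  apply map_inj (M₂ := M₂)
  rw [← hτ', ← act_lift, hb', map_mul, map_pow, map_pow, hy, hb', map_prod]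
  rw [← Finset.prod_pow, ← Finset.prod_pow, ← Finset.prod_mul_distrib]
  refine Fintype.prod_equiv (Equiv.mulLeft τ') _ _ fun σ => ?_
  rw [map_pow]
  show act τ' (act σ c) ^ _ =
    (act τ' (act σ c) ^ kx p K ε (AlgEquiv.restrictNormalHom K₁ (τ' * σ))) ^ n *
      (act τ' (act σ c) ^ l (AlgEquiv.restrictNormalHom K₁ (τ' * σ))) ^ p
  have h3 := hl (AlgEquiv.restrictNormalHom K₁ (τ' * σ))
  have h4 : τ⁻¹ * AlgEquiv.restrictNormalHom K₁ (τ' * σ) = AlgEquiv.restrictNormalHom K₁ σ := by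
    rw [map_mul, hτ', inv_mul_cancel_left]
  rw [h4] at h3
  rw [← zpow_natCast, ← zpow_natCast, ← zpow_natCast, ← zpow_natCast, ← zpow_mul, ← zpow_mul,
    ← zpow_add, h3]

end gal

/-- The decomposition group. -/
def dec (K : Type) {F : Type} [Field K] [Field F] [NumberField F] [Algebra K F]
    (W : HeightOneSpectrum (𝓞 F)) : Subgroup (F ≃ₐ[K] F) where
  carrier := {g | ∀ y : F, W.valuation F (g y) = W.valuation F y}
  mul_mem' := by
    intro a b ha hb y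
    show W.valuation F (a (b y)) = _
    rw [ha, hb]
  one_mem' := fun _ => rfl
  inv_mem' := by
    intro a ha y
    have h := ha (a⁻¹ y)
    have h1 : a (a⁻¹ y) = y := by
      show (a * a⁻¹) y = y
      rw [mul_inv_cancel]
      rfl
    rw [h1] at h
    exact h.symm

theorem mem_dec {K F : Type} [Field K] [Field F] [NumberField F] [Algebra K F]
    (W : HeightOneSpectrum (𝓞 F)) (g : F ≃ₐ[K] F) :
    g ∈ dec K W ↔ ∀ y : F, W.valuation F (g y) = W.valuation F y := Iff.rfl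

section loc

variable {p : ℕ} [hp : Fact p.Prime] {K K₁ M₂ : Type} [Field K] [NumberField K] [Field K₁]
  [NumberField K₁] [Field M₂] [NumberField M₂] [Algebra K K₁] [Algebra K M₂] [Algebra K₁ M₂]
  [IsScalarTower K K₁ M₂] [IsGalois K K₁] [IsGalois K M₂] {ε : K₁}

theorem loc_main (h1 : N_TRN) (h2 : N_GRP) (hε : IsPrimitiveRoot ε p) (a₀ : M₂ˣ)
    (hom : OmType p K (algebraMap K₁ M₂ ε) (a₀ : M₂)) (W : HeightOneSpectrum (𝓞 M₂)) (c : M₂ˣ)
    (d : ℕ) (hd : (d : ZMod p) * (Nat.card (dec K W) : ZMod p) = 1)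
    (hc1 : PwAt p W ((c : M₂) * (a₀ : M₂) ^ d))
    (hc2 : ∀ g : M₂ ≃ₐ[K] M₂, g ∉ dec K W → PwAt p (gw g⁻¹ W) (c : M₂)) :
    a₀ * ∏ σ : M₂ ≃ₐ[K] M₂, act σ c ^ kx p K ε (AlgEquiv.restrictNormalHom K₁ σ) ∈
      GW h2 p W := by
  classical
  have hε₂ : IsPrimitiveRoot (algebraMap K₁ M₂ ε) p :=
    hε.map_of_injective (algebraMap K₁ M₂).injective
  have hin : ∀ σ : M₂ ≃ₐ[K] M₂, σ ∈ dec K W →
      act σ c ^ kx p K ε (AlgEquiv.restrictNormalHom K₁ σ) * a₀ ^ d ∈ GW h2 p W := by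
    intro σ hσ
    obtain ⟨t1, -, -⟩ := h1 p M₂ M₂ (σ : M₂ ≃+* M₂) W W (fun y => hσ y)
      ((c : M₂) * (a₀ : M₂) ^ d) 1
    have h3 : act σ c * act σ a₀ ^ d ∈ GW h2 p W := by
      rw [← map_pow, ← map_mul]
      show PwAt p W ((σ : M₂ ≃+* M₂) ((c * a₀ ^ d : M₂ˣ) : M₂))
      rw [Units.val_mul, Units.val_pow_eq_pow_val]
      exact t1.2 hc1
    obtain ⟨n, hn⟩ := exists_n hε₂ σ
    have hn' := nsig_eq hε₂ hn
    obtain ⟨y, hy⟩ := (om_iff hε₂ a₀).1 hom σ n hn'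
    rw [nsig_lift hε] at hn'
    rw [hy, mul_pow, ← mul_assoc, ← pow_mul, ← pow_mul, mul_comm p d, pow_mul y] at h3
    have h4 := (Subgroup.mul_mem_cancel_right _ (pow_mem_GW h2 W (y ^ d))).1 h3
    have h5 := Subgroup.pow_mem _ h4 (kx p K ε (AlgEquiv.restrictNormalHom K₁ σ))
    rw [mul_pow, ← pow_mul] at h5
    refine (GW_congr h2 W _ a₀ ?_).1 h5
    push_cast
    rw [kx_cast, hn']
    have h0 : (n : ZMod p) ≠ 0 := by
      rw [← hn']
      exact nsig_ne hε _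
    field_simp
  have hout : ∀ σ : M₂ ≃ₐ[K] M₂, σ ∉ dec K W →
      act σ c ^ kx p K ε (AlgEquiv.restrictNormalHom K₁ σ) ∈ GW h2 p W := by
    intro σ hσ
    apply Subgroup.pow_mem
    obtain ⟨t1, -, -⟩ := h1 p M₂ M₂ (σ : M₂ ≃+* M₂) (gw σ⁻¹ W) W
      (fun y => val_smul σ (gw σ⁻¹ W) W
        (by show σ • (σ⁻¹ • W.asIdeal) = _; rw [smul_inv_smul]) y) (c : M₂) 1
    exact t1.2 (hc2 σ hσ)
  rw [← Finset.prod_filter_mul_prod_filter_not Finset.univ (fun σ => σ ∈ dec K W), ← mul_assoc]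
  apply Subgroup.mul_mem
  · have h3 : ∏ σ ∈ Finset.univ.filter (fun σ : M₂ ≃ₐ[K] M₂ => σ ∈ dec K W),
        (act σ c ^ kx p K ε (AlgEquiv.restrictNormalHom K₁ σ) * a₀ ^ d) ∈ GW h2 p W :=
      Subgroup.prod_mem _ fun σ hσ => hin σ (Finset.mem_filter.1 hσ).2
    rw [Finset.prod_mul_distrib, Finset.prod_const, ← pow_mul] at h3
    have h4 : (Finset.univ.filter (fun σ : M₂ ≃ₐ[K] M₂ => σ ∈ dec K W)).card =
        Nat.card (dec K W) := by
      rw [Nat.card_eq_fintype_card, Fintype.card_subtype]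
    rw [h4] at h3
    have h5 : ((d * Nat.card (dec K W) : ℕ) : ZMod p) = ((1 : ℕ) : ZMod p) := by
      push_cast
      exact hd
    have h6 := (GW_congr h2 W _ a₀ h5).1 h3
    rw [pow_one, mul_comm] at h6
    exact h6
  · exact Subgroup.prod_mem _ fun σ hσ => hout σ (Finset.mem_filter.1 hσ).2

end loc

section main

variable {p : ℕ} [hp : Fact p.Prime] {K M K₁ M₁ J M₂ : Type} [Field K] [NumberField K] [Field M]
  [NumberField M] [Field K₁] [NumberField K₁] [Field M₁] [NumberField M₁] [Field J]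
  [NumberField J] [Field M₂] [NumberField M₂] [Algebra K M] [Algebra K K₁] [Algebra K M₁]
  [Algebra M M₁] [Algebra K₁ M₁] [Algebra K J] [Algebra K M₂] [Algebra M M₂] [Algebra K₁ M₂]
  [Algebra M₁ M₂] [Algebra J M₂] {ε : K₁} {δ : M ≃ₐ[K] M} {P : (ZMod p)[X]} {a₀ : M₂ˣ}

theorem towX (hX : SitX p K M K₁ M₁ J M₂ ε δ P a₀) : IsScalarTower K K₁ M₂ := by
  have := hX.sit.st2
  have := hX.t1
  have := hX.t3
  refine IsScalarTower.of_algebraMap_eq fun x => ?_
  rw [IsScalarTower.algebraMap_apply K M₁ M₂, IsScalarTower.algebraMap_apply K K₁ M₁,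
    IsScalarTower.algebraMap_apply K₁ M₁ M₂]

/-- The order of the decomposition group of a prime above `p` is prime to `p`. -/
theorem dec_cop (hX : SitX p K M K₁ M₁ J M₂ ε δ P a₀) (W : HeightOneSpectrum (𝓞 M₂))
    (hW : W.valuation M₂ (p : M₂) < 1) : (Nat.card (dec K W)).Coprime p := by
  classical
  have := hX.sit.gMK
  have := hX.t1
  have := hX.t4
  have := hX.gJ
  have hcop := Pool.Agent.Helper94.PB.cop_KM₁ hX.sit
  have hval : ∀ x : J, W.valuation M₂ (algebraMap J M₂ x) =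
      (bel J W).valuation J x ^ (bel J W).asIdeal.ramificationIdx' W.asIdeal := fun x => valW W x
  have he : (bel J W).asIdeal.ramificationIdx' W.asIdeal ≠ 0 :=
    Pool.Agent.Helper79.PP.ram_ne (A := J) W
  have hpJ : (bel J W).valuation J (p : J) < 1 := by
    have h1 := hval (p : J)
    rw [map_natCast] at h1
    rw [h1] at hW
    by_contra h
    rw [not_lt] at h
    exact absurd hW (not_lt.2 (one_le_pow₀ h))
  let f : dec K W →* (M₁ ≃ₐ[K] M₁) :=
    (AlgEquiv.restrictNormalHom M₁).comp (dec K W).subtype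
  have hf : Function.Injective f := by
    rw [injective_iff_map_eq_one]
    rintro ⟨g, hg⟩ h
    have h1 : AlgEquiv.restrictNormal g M₁ = 1 := h
    have h2 : ∀ x : M₁, g (algebraMap M₁ M₂ x) = algebraMap M₁ M₂ x := by
      intro x
      rw [← AlgEquiv.restrictNormal_commutes g M₁ x, h1]
      rfl
    have h3 : AlgEquiv.restrictNormal g J = 1 := by
      apply hX.splJ (bel J W) hpJ
      intro y
      have h4 : W.valuation M₂ (algebraMap J M₂ (AlgEquiv.restrictNormal g J y)) =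
          W.valuation M₂ (algebraMap J M₂ y) := by
        rw [AlgEquiv.restrictNormal_commutes g J y]
        exact hg _
      rw [hval, hval] at h4
      exact (pow_left_inj₀ zero_le zero_le he).1 h4
    have h5 : ∀ x : J, g (algebraMap J M₂ x) = algebraMap J M₂ x := by
      intro x
      rw [← AlgEquiv.restrictNormal_commutes g J x, h3]
      rfl
    exact Subtype.ext (hX.lin₂ g h2 h5)
  have h6 := Subgroup.card_dvd_of_injective f hf
  rw [IsGalois.card_aut_eq_finrank] at h6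
  exact Nat.Coprime.coprime_dvd_left h6 hcop

end main

theorem w_apx (h1 : N_TRN) (h2 : N_GRP) : Pool.Agent.Helper42.PW.W_APX := by
  classical
  intro p _ K M K₁ M₁ J M₂ _ _ _ _ _ _ _ _ _ _ _ _ _ _ _ _ _ _ _ _ _ _ _ ε δ P a₀ hX
  have hs := hX.sit
  have := hs.gK
  have := hX.gM₂
  have := towX hX
  have hpp : p.Prime := Fact.out
  have hε : IsPrimitiveRoot ε p := hs.prim
  have hε₂ : IsPrimitiveRoot (algebraMap K₁ M₂ ε) p :=
    hε.map_of_injective (algebraMap K₁ M₂).injective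
  set Z : Set (HeightOneSpectrum (𝓞 M₂)) := {W | W.valuation M₂ (p : M₂) < 1} with hZdef
  have hpM : (p : M₂) ≠ 0 := Nat.cast_ne_zero.2 hpp.ne_zero
  have hZ : Z.Finite := by
    refine (HeightOneSpectrum.Support.finite (𝓞 M₂) ((p : M₂)⁻¹)).subset fun W hW => ?_
    show 1 < W.valuation M₂ ((p : M₂)⁻¹)
    rw [map_inv₀, one_lt_inv₀ (zero_lt_iff.2 ((_root_.map_ne_zero _).2 hpM))]
    exact hW
  have hWv : ∀ v : HeightOneSpectrum (𝓞 K), ∃ W : HeightOneSpectrum (𝓞 M₂), bel K W = v :=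
    fun v => Pool.Agent.Helper42.RD.exists_bel (M₁ := M₂) v
  choose Wv hWv using hWv
  set d : HeightOneSpectrum (𝓞 M₂) → ℕ := fun W => ((Nat.card (dec K W) : ZMod p)⁻¹).val with hd
  obtain ⟨c, hc⟩ := approx_cl hpp.ne_zero hZ.toFinset
    (fun W => if W = Wv (bel K W) then (a₀ ^ d W)⁻¹ else 1)
  obtain ⟨b, hb, hbe⟩ := exists_b (K := K) (K₁ := K₁) hε c
  refine ⟨b, hb, ?_⟩
  apply locS_of h2 Z hZ
  -- the chosen primes
  have hch : ∀ W : HeightOneSpectrum (𝓞 M₂), W ∈ Z → W = Wv (bel K W) →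
      PwAt p W ((a₀ * Units.map (algebraMap K₁ M₂ : K₁ →* M₂) b : M₂ˣ) : M₂) := by
    intro W hW hWe
    rw [hbe]
    refine loc_main h1 h2 hε a₀ hX.om W c (d W) ?_ ?_ ?_
    · have h3 : (Nat.card (dec K W) : ZMod p) ≠ 0 := by
        intro h0
        rw [ZMod.natCast_eq_zero_iff] at h0
        have h4 := dec_cop hX W hW
        rw [Nat.coprime_comm, hpp.coprime_iff_not_dvd] at h4
        exact h4 h0
      rw [hd]
      show ((((Nat.card (dec K W) : ZMod p)⁻¹).val : ℕ) : ZMod p) * _ = 1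
      rw [ZMod.natCast_zmod_val, inv_mul_cancel₀ h3]
    · have h3 := hc W (hZ.mem_toFinset.2 hW)
      simp only [if_pos hWe] at h3
      rw [Units.val_inv_eq_inv_val, div_inv_eq_mul, Units.val_pow_eq_pow_val] at h3
      exact (h2 p M₂ W).2.2.2.2.2.1 _ h3
    · intro g hg
      have hvg : ∀ y : M₂, W.valuation M₂ (g y) = (gw g⁻¹ W).valuation M₂ y := fun y =>
        val_smul g (gw g⁻¹ W) W (by show g • (g⁻¹ • W.asIdeal) = _; rw [smul_inv_smul]) y
      have hbl : bel K (gw g⁻¹ W) = bel K W := bel_smul g⁻¹ W (gw g⁻¹ W) rfl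
      have hmem : gw g⁻¹ W ∈ Z := by
        show (gw g⁻¹ W).valuation M₂ (p : M₂) < 1
        rw [← hvg, map_natCast]
        exact hW
      have hne : gw g⁻¹ W ≠ Wv (bel K (gw g⁻¹ W)) := by
        intro h
        rw [hbl, ← hWe] at h
        apply hg
        intro y
        rw [hvg, h]
      have h3 := hc (gw g⁻¹ W) (hZ.mem_toFinset.2 hmem)
      simp only [if_neg hne] at h3
      rw [Units.val_one, div_one] at h3
      exact (h2 p M₂ (gw g⁻¹ W)).2.2.2.2.2.1 _ h3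
  -- type `ω`
  have hbm : OmType p K (algebraMap K₁ M₂ ε)
      ((Units.map (algebraMap K₁ M₂ : K₁ →* M₂) b : M₂ˣ) : M₂) := by
    intro g
    obtain ⟨n, y, hn, hy⟩ := hb (AlgEquiv.restrictNormal g K₁)
    refine ⟨n, algebraMap K₁ M₂ y, ?_, ?_⟩
    · rw [← AlgEquiv.restrictNormal_commutes g K₁ ε, hn, map_pow]
    · show g (algebraMap K₁ M₂ (b : K₁)) = (algebraMap K₁ M₂ (b : K₁)) ^ n * _
      rw [← AlgEquiv.restrictNormal_commutes g K₁, hy, map_mul, map_pow, map_pow]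
  have hal := om_mul hε₂ hX.om hbm
  intro W hW
  obtain ⟨g, hg⟩ := conj_of_bel (K := K) W (Wv (bel K W)) (hWv (bel K W)).symm
  have hmem : Wv (bel K W) ∈ Z := by
    show (Wv (bel K W)).valuation M₂ (p : M₂) < 1
    rw [← hg, map_natCast]
    exact hW
  have h3 := hch (Wv (bel K W)) hmem (by rw [hWv])
  set α : M₂ˣ := a₀ * Units.map (algebraMap K₁ M₂ : K₁ →* M₂) b with hα
  obtain ⟨t1, -, -⟩ := h1 p M₂ M₂ (g : M₂ ≃+* M₂) (Wv (bel K W)) W (fun y => hg y) (α : M₂) 1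
  have h4 : PwAt p W (g (α : M₂)) := t1.2 h3
  obtain ⟨n, hn⟩ := exists_n hε₂ g
  have hn' := nsig_eq hε₂ hn
  obtain ⟨y, hy⟩ := (om_iff hε₂ α).1 hal g n hn'
  have hcop : n.Coprime p := by
    rw [Nat.coprime_comm, hpp.coprime_iff_not_dvd]
    intro hdv
    have h5 : (n : ZMod p) = 0 := (ZMod.natCast_eq_zero_iff n p).2 hdv
    rw [← hn'] at h5
    exact nsig_ne hε₂ g h5
  have h6 : g (α : M₂) = (α : M₂) ^ n * (y : M₂) ^ p := by
    have h7 : g (α : M₂) = ((α ^ n * y ^ p : M₂ˣ) : M₂) := congrArg (fun u : M₂ˣ => (u : M₂)) hy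
    rw [h7, Units.val_mul, Units.val_pow_eq_pow_val, Units.val_pow_eq_pow_val]
  rw [h6] at h4
  exact (((h2 p M₂ W).2.2.2.2.2.2 (α : M₂) α.ne_zero).2.2.2.2 n (y : M₂) hcop y.ne_zero).2.1 h4

end Pool.Agent.Helper13.PW
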