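import Pool.Agent.Helper42.PW.Goals3
import Pool.Agent.Helper77.PPO.GOO
import Pool.Agent.Helper94.PP1.EXT

/-!
# Packet W_P10 (project W, MP_fc6b1e_nt): part I in the case `M = K`

The Prop `W_P10` of `Pool/Agent/Helper42/PW/Goals3.lean`, proved from `W_HIL`; the proof follows `d_p1` in
`Pool/Agent/Helper77/PPO/GOO.lean`.
-/

set_option autoImplicit false

namespace Pool.Agent.Helper13.PW

open NumberField Polynomial Module IsDedekindDomain TensorProduct Pool.Agent.Helper51.SigLeo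
open Pool.Agent.Helper51.RP Pool.Agent.Helper42.RD Pool.Agent.Helper11.LE Pool.Agent.Helper42.PW
open Pool.Agent.Helper13.RS (bc bc_comp bc_sub bc_id extHom_bc el el_inj el_add el_zero el_nsmul
  el_unitsHom el_sum el_iter iter_add)
open Pool.Agent.Helper9.RP (UU mem_UU mem_UU' fin_UU sum_telescope)

theorem above_self {k K : Type} [NormedField k] [Field K] (T : Set (K →+* k)) :
    (above T : Set (K →+* k)) = T := by
  ext τ
  show τ.comp (algebraMap K K) ∈ T ↔ τ ∈ T
  rw [Algebra.algebraMap_self, RingHom.comp_id]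

theorem w_p10 (h1 : W_HIL) : Pool.Agent.Helper42.PW.W_P10 := by
  intro p _ k _ _ _ _ hι L K H K₁ H₁ Ω _ _ _ _ _ _ _ _ _ _ _ _ _ _ _ _ _ γ γ₁ T ε a s hH hTyp htriv
    ε' hε' z hzγ hzL
  have hT := hH.closed
  by_contra hz0
  have hp : p.Prime := Fact.out
  have hirr : Irreducible (X - 1 : (ZMod p)[X]) := by
    have := Polynomial.irreducible_X_sub_C (1 : ZMod p)
    rwa [map_one] at this
  have hchar : CharZero k := charZero_of_injective_algebraMap (algebraMap ℚ_[p] k).injective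
  have hγp : γ ^ p = 1 := by rw [← hH.γo]; exact pow_orderOf_eq_one γ
  have hγ1 : γ ≠ 1 := by
    intro h
    have := hH.γo
    rw [h, orderOf_one] at this
    exact hp.one_lt.ne this
  -- the maps
  have hq : ∀ u : Additive (𝓞 H)ˣ,
      (unitsHom γ - AddMonoidHom.id (Additive (𝓞 H)ˣ)) u ∈ UU p γ := by
    intro u
    rw [AddMonoidHom.sub_apply, AddMonoidHom.id_apply]
    exact sum_telescope hγp u
  have hg : ∀ u : UU p γ, unitsHom γ (u : Additive (𝓞 H)ˣ) ∈ UU p γ := by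
    intro u
    have h4 := (UU p γ).add_mem u.2 (sum_telescope hγp (u : Additive (𝓞 H)ˣ))
    rwa [add_sub_cancel] at h4
  let i : UU p γ →+ Additive (𝓞 H)ˣ := (UU p γ).subtype
  let q : Additive (𝓞 H)ˣ →+ UU p γ :=
    (unitsHom γ - AddMonoidHom.id (Additive (𝓞 H)ˣ)).codRestrict (UU p γ) hq
  let γU : UU p γ →+ UU p γ := ((unitsHom γ).comp i).codRestrict (UU p γ) hg
  have hiq : i.comp q = unitsHom γ - AddMonoidHom.id (Additive (𝓞 H)ˣ) := rfl
  have hγq : γU.comp q = q.comp (unitsHom γ) := by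
    apply DFunLike.ext
    intro u
    apply Subtype.ext
    change unitsHom γ (unitsHom γ u - u) = unitsHom γ (unitsHom γ u) - unitsHom γ u
    rw [map_sub]
  have hi2 : bc k i (bc k q z) = (ε' - 1) • z := by
    rw [bc_comp, hiq, bc_sub, bc_id]
    have h4 : bc k (unitsHom γ) z = ε' • z := hzγ
    rw [h4, sub_smul, one_smul]
  have hε1 : ε' - 1 ≠ 0 := sub_ne_zero.2 (hε'.ne_one hp.one_lt)
  have hz' : bc k q z ≠ 0 := by
    intro h4
    rw [h4, map_zero] at hi2
    rcases smul_eq_zero.1 hi2.symm with h5 | h5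
    · exact hε1 h5
    · exact hz0 h5
  have hγz' : extEnd γU (bc k q z) = ε' • bc k q z := by
    have h4 : extEnd γU (bc k q z) = bc k γU (bc k q z) := rfl
    rw [h4, bc_comp, hγq, ← bc_comp]
    have h5 : bc k (unitsHom γ) z = ε' • z := hzγ
    rw [h5, map_smul]
  have hγl : ∀ l : ℕ, (extEnd γU : (k ⊗[ℤ] UU p γ) →ₗ[k] (k ⊗[ℤ] UU p γ))^[l] (bc k q z) =
      ε' ^ l • bc k q z := by
    intro l
    induction l with
    | zero => rw [Function.iterate_zero, id_eq, pow_zero, one_smul]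
    | succ l ih => rw [Function.iterate_succ_apply', ih, map_smul, hγz', smul_smul, pow_succ]
  -- iterates
  have hitγ : ∀ (j : ℕ) (u : UU p γ), ((γU^[j] u : UU p γ) : Additive (𝓞 H)ˣ) =
      (unitsHom γ)^[j] (u : Additive (𝓞 H)ˣ) := by
    intro j
    induction j with
    | zero => intro u; rfl
    | succ j ih =>
      intro u
      rw [Function.iterate_succ_apply', Function.iterate_succ_apply', ← ih]
      rfl
  have hsumU : ∀ u : UU p γ, ∑ j ∈ Finset.range p, γU^[j] u = 0 := by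
    intro u
    apply Subtype.ext
    rw [AddSubgroup.val_finsetSum]
    simp only [hitγ]
    exact mem_UU.1 u.2
  -- rationality
  have hcl : PlaceClosed (above T : Set (H →+* k)) := by
    intro σ τ hστ
    apply hT
    intro x
    exact hστ _
  obtain ⟨n, f, hf0, hfc⟩ := Pool.Agent.Helper94.RP.s_rat p k hι L H _ hcl
  have hf0z := hf0 z hzL
  have hfin := fin_UU p γ
  obtain ⟨u, hu1, hu2, hu4⟩ := Pool.Agent.Helper9.LE.l_la p k (UU p γ) γU hsumU
    (Fin n) (fun j => (f j).comp i) (bc k q z) hz' (by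
      intro j l
      rw [hγl, map_smul]
      have h4 := extHom_bc (k := k) i
        (((algebraMap ℚ_[p] k : ℚ_[p] →+* k) : ℚ_[p] →+ k).comp (f j)) (bc k q z)
      rw [hi2, map_smul, hf0z j, smul_zero] at h4
      have h5 : extHom (((algebraMap ℚ_[p] k : ℚ_[p] →+* k) : ℚ_[p] →+ k).comp ((f j).comp i))
          (bc k q z) = 0 := h4.symm
      rw [h5, smul_zero])
  -- the constant
  have hfinE : Finite (H →+* k) := by
    have : Finite (H →ₐ[ℚ] k) := inferInstance
    exact Finite.of_injective (fun f : H →+* k => f.toRatAlgHom) (fun f g h => by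
      ext x; exact DFunLike.congr_fun h x)
  have hp1 : (1 : ℝ) < p := by exact_mod_cast hp.one_lt
  have hp0 : (p : ℝ) ≠ 0 := by positivity
  choose! C hC using hfc
  obtain ⟨c, hc⟩ : ∃ c : ℕ, ∀ τ : H →+* k, ∑ j, ‖C τ j‖ ≤ (p : ℝ) ^ c := by
    have : Fintype (H →+* k) := Fintype.ofFinite _
    obtain ⟨c, hc⟩ := pow_unbounded_of_one_lt (∑ τ : H →+* k, ∑ j, ‖C τ j‖) hp1
    refine ⟨c, fun τ => le_trans ?_ hc.le⟩
    exact Finset.single_le_sum (f := fun τ : H →+* k => ∑ j, ‖C τ j‖)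
      (fun _ _ => Finset.sum_nonneg fun _ _ => norm_nonneg _) (Finset.mem_univ τ)
  obtain ⟨hv1, hv2⟩ := Pool.Agent.Helper3.LE.shift γU u hu1 hu2 c
  -- Hilbert 90
  have hN0 := mem_UU'.1 (u (0 + c)).2
  obtain ⟨y, hy0, hy⟩ := Pool.Agent.Helper79.RP.hilbert90 hp.pos γ hH.γo hN0
  obtain ⟨x, hx⟩ := Pool.Agent.Helper79.RP.fix_mem (M := K) hp γ (fun z => γ.commutes z) hH.degH hγ1
    (Pool.Agent.Helper79.RP.nrm_fix hγp y)
  have hx0 : x ≠ 0 := by
    rintro rfl
    rw [map_zero] at hx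
    exact Finset.prod_ne_zero_iff.2 (fun j _ => (_root_.map_ne_zero (γ ^ j)).2 hy0) hx.symm
  obtain ⟨hloc, hsig⟩ := h1 p k hι L K K H K₁ H₁ Ω 1 1 γ 1 γ₁ T ε a s (X - 1) hirr hH hTyp
    (fun N => ((u (N + c) : UU p γ) : Additive (𝓞 H)ˣ).toMul)
    (fun N => mem_UU'.1 (u (N + c)).2)
    (by
      intro N
      obtain ⟨b, hb⟩ := hv1 N
      refine ⟨(b : Additive (𝓞 H)ˣ).toMul, mem_UU'.1 b.2, ?_⟩
      have h5 := congrArg (fun v : UU p γ => el (v : Additive (𝓞 H)ˣ)) hb
      beta_reduce at h5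
      rw [AddSubgroup.coe_add, AddSubgroup.coe_add, el_add, el_add] at h5
      exact h5)
    (by
      intro N l τ hτ
      rw [above_self] at hτ
      have h4 := hC τ hτ ((unitsHom γ)^[l] ((u (N + c) : UU p γ) : Additive (𝓞 H)ˣ))
      change ‖logUnits L τ ((unitsHom γ)^[l] ((u (N + c) : UU p γ) : Additive (𝓞 H)ˣ))‖ ≤ _
      rw [h4]
      have h6 : ∀ j, ‖f j ((unitsHom γ)^[l] ((u (N + c) : UU p γ) : Additive (𝓞 H)ˣ))‖ ≤
          (1 / p : ℝ) ^ (N + c) := by
        intro j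
        rw [← hitγ]
        exact hu4 (N + c) j l
      calc ‖∑ j, f j ((unitsHom γ)^[l] ((u (N + c) : UU p γ) : Additive (𝓞 H)ˣ)) • C τ j‖
          ≤ ∑ j, ‖f j ((unitsHom γ)^[l] ((u (N + c) : UU p γ) : Additive (𝓞 H)ˣ)) • C τ j‖ :=
            norm_sum_le _ _
        _ ≤ ∑ j, (1 / p : ℝ) ^ (N + c) * ‖C τ j‖ := by
            apply Finset.sum_le_sum
            intro j _
            rw [norm_smul]
            exact mul_le_mul_of_nonneg_right (h6 j) (norm_nonneg _)
        _ = (1 / p : ℝ) ^ (N + c) * ∑ j, ‖C τ j‖ := by rw [Finset.mul_sum]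
        _ ≤ (1 / p : ℝ) ^ (N + c) * (p : ℝ) ^ c := by
            exact mul_le_mul_of_nonneg_left (hc τ) (by positivity)
        _ = (1 / p : ℝ) ^ N := by
            rw [pow_add, mul_assoc, ← mul_pow, one_div_mul_cancel hp0, one_pow, mul_one])
    (Units.mk0 y hy0) (Units.mk0 x hx0) hy hx
    ⟨Units.mk0 x hx0, Pool.Agent.Helper94.PP1.pol_one _⟩
  rw [above_self] at hsig
  have hw := htriv (Units.mk0 x hx0) hloc hsig
  obtain ⟨t, ht1, hte⟩ := Pool.Agent.Helper79.RP.pthpow (M := K) hp (fun z => γ.commutes z)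
    (((u (0 + c) : UU p γ) : Additive (𝓞 H)ˣ).toMul) hy0 hy (x := Units.mk0 x hx0) hx hw
  apply hv2
  have ht : Additive.ofMul t ∈ UU p γ := mem_UU'.2 ht1
  refine ⟨⟨Additive.ofMul t, ht⟩, 0, 1, one_pos, smul_zero _, ?_⟩
  rw [add_zero]
  apply Subtype.ext
  apply el_inj
  rw [AddSubgroup.coe_add, el_add]
  exact hte

end Pool.Agent.Helper13.PW
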